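import Pool.Agent.H29.UDP.TPro
import Pool.Agent.H15.DPC.CUT

/-!
# MP_47c37b: scaling limits: condition 3 (row EX2)
-/

set_option autoImplicit false

open MeasureTheory SchwartzMap Filter Topology
open scoped ENNReal ContDiff

namespace Pool.Agent.H43.UDP

open Pool.Agent.H43.DPC
open Pool.Agent.H29.UDP (T_EX2)

noncomputable section

theorem ex2_closed (d n : ℕ) : IsClosed (Diag d n) := by
  have h1 : Diag d n = ⋃ i : Fin n, ⋃ j : Fin n, {x | i ≠ j ∧ x i = x j} := by
    ext x
    simp only [Diag, Set.mem_ofPred_eq, Set.mem_iUnion]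
  rw [h1]
  refine isClosed_iUnion_of_finite fun i => isClosed_iUnion_of_finite fun j => ?_
  by_cases hij : i = j
  · have h2 : {x : Fin n → V d | i ≠ j ∧ x i = x j} = ∅ := by
      ext x
      simp [hij]
    rw [h2]
    exact isClosed_empty
  · have h2 : {x : Fin n → V d | i ≠ j ∧ x i = x j} = {x | x i = x j} := by
      ext x
      simp [hij]
    rw [h2]
    exact isClosed_eq (continuous_apply i) (continuous_apply j)

theorem ex2_prod_cont {d n : ℕ} (g : Fin n → S d) :
    Continuous (fun x : Fin n → V d => ∏ i, g i (x i)) :=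
  continuous_finsetProd _ fun i _ => (g i).continuous.comp (continuous_apply i)

theorem ex2_prod_comp {d n : ℕ} (g : Fin n → S d) (hg : ∀ i, HasCompactSupport (g i)) :
    HasCompactSupport (fun x : Fin n → V d => ∏ i, g i (x i)) := by
  refine HasCompactSupport.intro (isCompact_univ_pi fun i => (hg i)) ?_
  intro x hx
  rw [Set.mem_univ_pi] at hx
  push Not at hx
  obtain ⟨i, hi⟩ := hx
  exact Finset.prod_eq_zero (Finset.mem_univ i) (image_eq_zero_of_notMem_tsupport hi)

theorem pf_EX2 (hCUT : Pool.Agent.H43.DPC.T_CUT) (hMCT : Pool.Agent.H43.DPC.T_MCT)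
    (hMAJ : Pool.Agent.H80.LD.T_MAJ) : T_EX2 := by
  classical
  intro d μ _ hD n s h1 h2 hs hcs
  have hms : MeasurableSet (Diag d n)ᶜ := (ex2_closed d n).isOpen_compl.measurableSet
  -- compactly supported functions
  have hcomp : ∀ g : Fin n → S d, (∀ i, HasCompactSupport (g i)) →
      IntegrableOn (fun x => s x * ∏ i, g i (x i)) (Diag d n)ᶜ := by
    intro g hg
    exact LocallyIntegrable.integrable_smul_right_of_hasCompactSupport h2 (ex2_prod_cont g)
      (ex2_prod_comp g hg)
  -- nonnegative functions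
  have hpos : ∀ h : Fin n → S d, (∀ i x, 0 ≤ h i x) →
      IntegrableOn (fun x => s x * ∏ i, h i (x i)) (Diag d n)ᶜ := by
    intro h hh
    have hchi : ∀ m x, 0 ≤ CUT_chi d m x ∧ CUT_chi d m x ≤ 1 := fun m x =>
      ⟨(CUT_th d).nonneg, (CUT_th d).le_one⟩
    have hg0 : ∀ m i x, 0 ≤ CUT_theta d m (h i) x := by
      intro m i x
      rw [CUT_theta_apply]
      exact mul_nonneg (hchi m x).1 (hh i x)
    have hgle : ∀ m i x, |CUT_theta d m (h i) x| ≤ h i x := by
      intro m i x
      rw [abs_of_nonneg (hg0 m i x), CUT_theta_apply]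
      exact mul_le_of_le_one_left (hh i x) (hchi m x).2
    have hgc : ∀ m i, HasCompactSupport (CUT_theta d m (h i)) := by
      intro m i
      have h3 : (⇑(CUT_theta d m (h i)) : V d → ℝ) = fun x => CUT_chi d m x * h i x :=
        funext fun x => CUT_theta_apply d m (h i) x
      rw [h3]
      exact (CUT_chi_compact d m).mul_right
    have hgt : ∀ i x, Tendsto (fun m => CUT_theta d m (h i) x) atTop (𝓝 (h i x)) := by
      intro i x
      refine tendsto_const_nhds.congr' ?_
      obtain ⟨M, hM⟩ := exists_nat_ge ‖x‖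
      filter_upwards [eventually_ge_atTop M] with m hm
      have hm0 : (0 : ℝ) < m + 1 := by positivity
      have hMm : (M : ℝ) ≤ m := by exact_mod_cast hm
      have h1 : CUT_chi d m x = 1 := by
        refine (CUT_th d).one_of_mem_closedBall ?_
        rw [mem_closedBall_zero_iff, norm_smul, norm_inv, Real.norm_of_nonneg hm0.le]
        show _ ≤ (1 : ℝ)
        rw [inv_mul_le_iff₀ hm0, mul_one]
        linarith
      rw [CUT_theta_apply, h1, one_mul]
    have hint : ∀ m, IntegrableOn (fun x => s x * ∏ i, CUT_theta d m (h i) (x i)) (Diag d n)ᶜ :=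
      fun m => hcomp (fun i => CUT_theta d m (h i)) (hgc m)
    have hle : ∀ m, ∫ x in (Diag d n)ᶜ, s x * ∏ i, CUT_theta d m (h i) (x i) ≤ moment μ h := by
      intro m
      rw [← hcs (fun i => CUT_theta d m (h i)) (hgc m)]
      exact (le_abs_self _).trans (hD.maj n (fun i => CUT_theta d m (h i)) h (hgle m))
    have hbd : ∀ m, ∫⁻ x in (Diag d n)ᶜ, ‖s x * ∏ i, CUT_theta d m (h i) (x i)‖ₑ ≤
        ENNReal.ofReal (moment μ h) := by
      intro m
      rw [← ofReal_integral_norm_eq_lintegral_enorm (hint m)]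
      apply ENNReal.ofReal_le_ofReal
      refine le_trans (le_of_eq ?_) (hle m)
      apply setIntegral_congr_fun hms
      intro x hx
      show ‖s x * ∏ i, CUT_theta d m (h i) (x i)‖ = _
      rw [Real.norm_of_nonneg]
      exact mul_nonneg (hs x hx) (Finset.prod_nonneg fun i _ => hg0 m i (x i))
    have hlim : ∀ x, Tendsto (fun m => s x * ∏ i, CUT_theta d m (h i) (x i)) atTop
        (𝓝 (s x * ∏ i, h i (x i))) := fun x =>
      (tendsto_finsetProd _ fun i _ => hgt i (x i)).const_mul (s x)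
    refine ⟨aestronglyMeasurable_of_tendsto_ae atTop (fun m => (hint m).aestronglyMeasurable)
      (Eventually.of_forall hlim), ?_⟩
    show ∫⁻ x in (Diag d n)ᶜ, ‖s x * ∏ i, h i (x i)‖ₑ < ⊤
    have h3 : ∀ x, ‖s x * ∏ i, h i (x i)‖ₑ =
        liminf (fun m => ‖s x * ∏ i, CUT_theta d m (h i) (x i)‖ₑ) atTop := fun x =>
      ((hlim x).enorm).liminf_eq.symm
    simp only [h3]
    refine lt_of_le_of_lt (lintegral_liminf_le' fun m => (hint m).aestronglyMeasurable.enorm) ?_
    refine lt_of_le_of_lt (liminf_le_liminf (Eventually.of_forall hbd)) ?_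
    rw [liminf_const]
    exact ENNReal.ofReal_lt_top
  -- general functions
  intro f
  choose H hH using fun i => hMAJ d (f i)
  have hH0 : ∀ i x, 0 ≤ H i x := fun i x => (abs_nonneg _).trans (hH i x)
  have hdom := hpos H hH0
  have hprod : ∀ g : Fin n → S d, (∀ i x, |g i x| ≤ |f i x|) → ∀ x : Fin n → V d,
      ‖s x * ∏ i, g i (x i)‖ ≤ ‖s x * ∏ i, H i (x i)‖ := by
    intro g hg x
    rw [norm_mul, norm_mul]
    refine mul_le_mul_of_nonneg_left ?_ (norm_nonneg _)
    rw [Real.norm_eq_abs, Real.norm_eq_abs, Finset.abs_prod, Finset.abs_prod]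
    exact Finset.prod_le_prod (fun i _ => abs_nonneg _) fun i _ =>
      ((hg i (x i)).trans (hH i (x i))).trans (le_abs_self _)
  obtain ⟨θ, hθc, hθb, hθp, hθt⟩ := hCUT d
  have hθi : ∀ m, IntegrableOn (fun x => s x * ∏ i, θ m (f i) (x i)) (Diag d n)ᶜ := fun m =>
    hcomp (fun i => θ m (f i)) fun i => hθc m (f i)
  have hlim : ∀ x : Fin n → V d, Tendsto (fun m => s x * ∏ i, θ m (f i) (x i)) atTop
      (𝓝 (s x * ∏ i, f i (x i))) := fun x =>
    (tendsto_finsetProd _ fun i _ => hθp (f i) (x i)).const_mul (s x)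
  have hfi : IntegrableOn (fun x => s x * ∏ i, f i (x i)) (Diag d n)ᶜ := by
    refine Integrable.mono hdom (aestronglyMeasurable_of_tendsto_ae atTop
      (fun m => (hθi m).aestronglyMeasurable) (Eventually.of_forall hlim))
      (Eventually.of_forall fun x => hprod f (fun _ _ => le_rfl) x)
  refine ⟨hfi, ?_⟩
  have e1 : Tendsto (fun m => moment μ (fun i => θ m (f i))) atTop (𝓝 (moment μ f)) :=
    hMCT d μ hD.mao n (fun m i => θ m (f i)) f fun i => hθt (f i)
  have e2 : ∀ m, moment μ (fun i => θ m (f i)) =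
      ∫ x in (Diag d n)ᶜ, s x * ∏ i, θ m (f i) (x i) := fun m =>
    hcs (fun i => θ m (f i)) fun i => hθc m (f i)
  have e3 : Tendsto (fun m => ∫ x in (Diag d n)ᶜ, s x * ∏ i, θ m (f i) (x i)) atTop
      (𝓝 (∫ x in (Diag d n)ᶜ, s x * ∏ i, f i (x i))) := by
    refine tendsto_integral_of_dominated_convergence (fun x => ‖s x * ∏ i, H i (x i)‖)
      (fun m => (hθi m).aestronglyMeasurable) hdom.norm
      (fun m => ae_of_all _ fun x => ?_) (ae_of_all _ fun x => hlim x)
    exact hprod (fun i => θ m (f i)) (fun i x => hθb m (f i) x) x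
  refine tendsto_nhds_unique e1 ?_
  have e4 : (fun m => moment μ (fun i => θ m (f i))) =
      fun m => ∫ x in (Diag d n)ᶜ, s x * ∏ i, θ m (f i) (x i) := funext e2
  rw [e4]
  exact e3

end

end Pool.Agent.H43.UDP
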