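import Pool.Agent.H29.UDP.TAna

/-! MP_47c37b_mp, scaling limits: row HRT (propagation of smoothness along an analytic
direction). -/

set_option autoImplicit false

namespace Pool.Agent.H43.UDP

open Filter Topology Pool.Agent.H29.UDP

variable {E : Type} [NormedAddCommGroup E] [NormedSpace ℝ E]

/-- coefficients -/
def cc (m j : ℕ) : ℝ := ((m - 1 + j).choose j : ℝ)

theorem cc_nonneg (m j : ℕ) : 0 ≤ cc m j := Nat.cast_nonneg _

theorem sum_choose_real (m : ℕ) : ∑ i ∈ Finset.range (m + 1), (m.choose i : ℝ) = 2 ^ m := by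
  have h := Nat.sum_range_choose m
  exact_mod_cast h

theorem dm_bound (m : ℕ) (h : ℝ) (v : E) (s : E → ℝ) (x : E) (B : ℝ)
    (hB : ∀ i ≤ m, |s (x + ((i : ℝ) * h) • v)| ≤ B) : |dm m h v s x| ≤ 2 ^ m * B := by
  unfold dm
  refine (Finset.abs_sum_le_sum_abs _ _).trans ?_
  have h1 : ∀ i ∈ Finset.range (m + 1),
      |(-1) ^ i * (m.choose i : ℝ) * s (x + ((i : ℝ) * h) • v)| ≤ (m.choose i : ℝ) * B := by
    intro i hi
    rw [abs_mul, abs_mul, abs_pow, abs_neg, abs_one, one_pow, one_mul,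
      abs_of_nonneg (Nat.cast_nonneg _ : (0 : ℝ) ≤ (m.choose i : ℝ))]
    exact mul_le_mul_of_nonneg_left (hB i (Nat.lt_succ_iff.1 (Finset.mem_range.1 hi)))
      (Nat.cast_nonneg _)
  refine (Finset.sum_le_sum h1).trans ?_
  rw [← Finset.sum_mul, sum_choose_real]

theorem dm_add (m : ℕ) (h : ℝ) (v : E) (s g : E → ℝ) (x : E) :
    dm m h v (fun y => s y + g y) x = dm m h v s x + dm m h v g x := by
  unfold dm
  rw [← Finset.sum_add_distrib]
  exact Finset.sum_congr rfl fun i _ => by ring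

theorem dm_smul (m : ℕ) (h : ℝ) (v : E) (c : ℝ) (s : E → ℝ) (x : E) :
    dm m h v (fun y => c * s y) x = c * dm m h v s x := by
  unfold dm
  rw [Finset.mul_sum]
  exact Finset.sum_congr rfl fun i _ => by ring

theorem dm_sum {ι : Type*} (S : Finset ι) (m : ℕ) (h : ℝ) (v : E) (s : ι → E → ℝ) (x : E) :
    dm m h v (fun y => ∑ j ∈ S, s j y) x = ∑ j ∈ S, dm m h v (s j) x := by
  unfold dm
  rw [Finset.sum_comm]
  refine Finset.sum_congr rfl fun i _ => ?_
  rw [Finset.mul_sum]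

theorem dm_shift (m : ℕ) (h : ℝ) (v : E) (s : E → ℝ) (u x : E) :
    dm m h v (fun y => s (y + u)) x = dm m h v s (x + u) := by
  unfold dm
  refine Finset.sum_congr rfl fun i _ => ?_
  rw [add_right_comm]

/-- the smooth part -/
def gg (s : E → ℝ) (m : ℕ) (q : ℝ) (w : E) (y : E) : ℝ :=
  ∑ j ∈ Finset.range m, cc m j *
    ∑ i ∈ Finset.range (j + 1), ((-1) ^ i * (j.choose i : ℝ)) * s (y + (((m : ℝ) + i) * q) • w)

/-- the remainder -/
def rr (s : E → ℝ) (m : ℕ) (q : ℝ) (w : E) (y : E) : ℝ :=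
  ∑ j ∈ Finset.range m, cc m j * dm m q w s (y + ((j : ℝ) * q) • w)

theorem split_eq (hPID : T_PID) (s : E → ℝ) (m : ℕ) (hm : 1 ≤ m) (q : ℝ) (w y : E) :
    s y = gg s m q w y + rr s m q w y := by
  have h := (hPID m hm).1 fun i => s (y + ((i : ℝ) * q) • w)
  simp only [Nat.cast_zero, zero_mul, zero_smul, add_zero] at h
  rw [h]
  unfold gg rr
  congr 1
  · refine Finset.sum_congr rfl fun j _ => ?_
    unfold cc
    congr 1
    refine Finset.sum_congr rfl fun i _ => ?_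
    rw [Nat.cast_add]
  · refine Finset.sum_congr rfl fun j _ => ?_
    unfold cc dm
    congr 1
    refine Finset.sum_congr rfl fun i _ => ?_
    rw [Nat.cast_add, add_assoc, ← add_smul]
    congr 4
    ring

theorem dm_gg (s : E → ℝ) (m : ℕ) (q : ℝ) (w : E) (M : ℕ) (h : ℝ) (v y : E) :
    dm M h v (gg s m q w) y = ∑ j ∈ Finset.range m, cc m j *
      ∑ i ∈ Finset.range (j + 1), ((-1) ^ i * (j.choose i : ℝ)) *
        dm M h v s (y + (((m : ℝ) + i) * q) • w) := by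
  have e : gg s m q w = fun y => ∑ j ∈ Finset.range m, cc m j *
      ∑ i ∈ Finset.range (j + 1), ((-1) ^ i * (j.choose i : ℝ)) *
        s (y + (((m : ℝ) + i) * q) • w) := rfl
  rw [e, dm_sum (Finset.range m) M h v (fun j y => cc m j *
      ∑ i ∈ Finset.range (j + 1), ((-1) ^ i * (j.choose i : ℝ)) *
        s (y + (((m : ℝ) + i) * q) • w)) y]
  refine Finset.sum_congr rfl fun j _ => ?_
  rw [dm_smul]
  congr 1
  rw [dm_sum (Finset.range (j + 1)) M h v (fun i y => ((-1) ^ i * (j.choose i : ℝ)) *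
        s (y + (((m : ℝ) + i) * q) • w)) y]
  refine Finset.sum_congr rfl fun i _ => ?_
  rw [dm_smul]
  congr 1
  exact dm_shift M h v s _ y

theorem key_HRT (hPID : T_PID) (x₀ w : E) (r τ₀ A : ℝ) (hr : 0 < r) (hτ : 0 < τ₀) (hA : 0 ≤ A)
    (hAτ : 128 * A * τ₀ ≤ 1) (s : E → ℝ)
    (h1 : ∀ y ∈ Metric.ball x₀ r, ∀ τ : ℝ, 0 ≤ τ → τ ≤ τ₀ → ∀ (m : ℕ) (q : ℝ), 0 < q →
      m * q ≤ τ₀ → |dm m q w s (y + τ • w)| ≤ (A * (m * q)) ^ m)
    (M : ℕ) (v : E) (h c : ℝ) (hh : 0 < h)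
    (h2 : ∀ τ : ℝ, τ₀ / 2 ≤ τ → τ ≤ τ₀ → ∀ y ∈ Metric.ball (x₀ + τ • w) r,
      |dm M h v s y| ≤ c) (y : E) (hy : y ∈ Metric.ball x₀ (r / 2))
    (hvh : (M : ℝ) * h * ‖v‖ ≤ r / 2) (m : ℕ) (hm : 1 ≤ m) :
    |dm M h v s y| ≤ 8 ^ m * c + 2 ^ M * (1 / 64) ^ m := by
  have hm0 : (0 : ℝ) < m := by exact_mod_cast hm
  obtain ⟨q, hq⟩ : ∃ q : ℝ, q = τ₀ / (2 * m) := ⟨_, rfl⟩
  have hq0 : 0 < q := by rw [hq]; positivity
  have hmq : (m : ℝ) * q = τ₀ / 2 := by
    rw [hq]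
    field_simp
  have e1 : s = fun y => gg s m q w y + rr s m q w y := by
    funext y
    exact split_eq hPID s m hm q w y
  have e2 : dm M h v s y = dm M h v (gg s m q w) y + dm M h v (rr s m q w) y := by
    conv_lhs => rw [e1]
    exact dm_add M h v (gg s m q w) (rr s m q w) y
  -- the remainder
  have b1 : ∀ y' ∈ Metric.ball x₀ r, |rr s m q w y'| ≤ (1 / 64) ^ m := by
    intro y' hy'
    unfold rr
    refine (Finset.abs_sum_le_sum_abs _ _).trans ?_
    have h3 : ∀ j ∈ Finset.range m, |cc m j * dm m q w s (y' + ((j : ℝ) * q) • w)| ≤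
        cc m j * (A * (τ₀ / 2)) ^ m := by
      intro j hj
      rw [abs_mul, abs_of_nonneg (cc_nonneg m j)]
      refine mul_le_mul_of_nonneg_left ?_ (cc_nonneg m j)
      have hjm : (j : ℝ) ≤ m := by exact_mod_cast (Finset.mem_range.1 hj).le
      have h4 : (j : ℝ) * q ≤ τ₀ / 2 := by
        rw [← hmq]
        exact mul_le_mul_of_nonneg_right hjm hq0.le
      have h5 := h1 y' hy' (j * q) (by positivity) (by linarith) m q hq0 (by rw [hmq]; linarith)
      rw [hmq] at h5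
      exact h5
    refine (Finset.sum_le_sum h3).trans ?_
    rw [← Finset.sum_mul]
    have h6 : ∑ j ∈ Finset.range m, cc m j ≤ 4 ^ m := (hPID m hm).2.2
    have h7 : 0 ≤ (A * (τ₀ / 2)) ^ m := by positivity
    refine (mul_le_mul_of_nonneg_right h6 h7).trans ?_
    rw [← mul_pow]
    refine pow_le_pow_left₀ (by positivity) ?_ m
    linarith
  have b2 : |dm M h v (rr s m q w) y| ≤ 2 ^ M * (1 / 64) ^ m := by
    refine dm_bound M h v _ y _ fun i hi => b1 _ ?_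
    rw [Metric.mem_ball, dist_eq_norm] at hy ⊢
    have h3 : y + ((i : ℝ) * h) • v - x₀ = (y - x₀) + ((i : ℝ) * h) • v := by abel
    rw [h3]
    refine lt_of_le_of_lt (norm_add_le _ _) ?_
    rw [norm_smul, Real.norm_of_nonneg (by positivity)]
    have hi' : (i : ℝ) ≤ M := by exact_mod_cast hi
    have h4 : (i : ℝ) * h * ‖v‖ ≤ M * h * ‖v‖ :=
      mul_le_mul_of_nonneg_right (mul_le_mul_of_nonneg_right hi' hh.le) (norm_nonneg _)
    linarith
  -- the smooth part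
  have hc : ∀ τ : ℝ, τ₀ / 2 ≤ τ → τ ≤ τ₀ → |dm M h v s (y + τ • w)| ≤ c := by
    intro τ ht1 ht2
    refine h2 τ ht1 ht2 _ ?_
    rw [Metric.mem_ball, dist_eq_norm] at hy ⊢
    have h3 : y + τ • w - (x₀ + τ • w) = y - x₀ := by abel
    rw [h3]
    linarith
  have hc0 : 0 ≤ c := (abs_nonneg _).trans (hc τ₀ (by linarith) le_rfl)
  have b3 : |dm M h v (gg s m q w) y| ≤ 8 ^ m * c := by
    rw [dm_gg]
    refine (Finset.abs_sum_le_sum_abs _ _).trans ?_
    have h3 : ∀ j ∈ Finset.range m, |cc m j * ∑ i ∈ Finset.range (j + 1),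
        ((-1) ^ i * (j.choose i : ℝ)) * dm M h v s (y + (((m : ℝ) + i) * q) • w)| ≤
        cc m j * 2 ^ j * c := by
      intro j hj
      rw [abs_mul, abs_of_nonneg (cc_nonneg m j), mul_assoc]
      refine mul_le_mul_of_nonneg_left ?_ (cc_nonneg m j)
      refine (Finset.abs_sum_le_sum_abs _ _).trans ?_
      have h4 : ∀ i ∈ Finset.range (j + 1), |((-1) ^ i * (j.choose i : ℝ)) *
          dm M h v s (y + (((m : ℝ) + i) * q) • w)| ≤ (j.choose i : ℝ) * c := by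
        intro i hi
        rw [abs_mul, abs_mul, abs_pow, abs_neg, abs_one, one_pow, one_mul,
          abs_of_nonneg (Nat.cast_nonneg _ : (0 : ℝ) ≤ (j.choose i : ℝ))]
        refine mul_le_mul_of_nonneg_left (hc _ ?_ ?_) (Nat.cast_nonneg _)
        · rw [← hmq]
          refine mul_le_mul_of_nonneg_right ?_ hq0.le
          have : (0 : ℝ) ≤ i := Nat.cast_nonneg i
          linarith
        · have h5 : (i : ℝ) ≤ m := by
            have h6 : i ≤ m := by
              have := Finset.mem_range.1 hi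
              have := Finset.mem_range.1 hj
              omega
            exact_mod_cast h6
          have h7 : (i : ℝ) * q ≤ m * q := mul_le_mul_of_nonneg_right h5 hq0.le
          rw [add_mul]
          linarith
      refine (Finset.sum_le_sum h4).trans ?_
      rw [← Finset.sum_mul, sum_choose_real]
    refine (Finset.sum_le_sum h3).trans ?_
    rw [← Finset.sum_mul]
    exact mul_le_mul_of_nonneg_right (hPID m hm).2.1 hc0
  rw [e2]
  refine (abs_add_le _ _).trans ?_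
  linarith

theorem pf_HRT (hPID : T_PID) : T_HRT := by
  intro E _ _ x₀ w r τ₀ A D C η hr hτ hA hAτ hη p
  obtain ⟨V, hV⟩ : ∃ V : ℝ, V = ∑ v ∈ D, ‖v‖ := ⟨_, rfl⟩
  have hV0 : 0 ≤ V := by
    rw [hV]
    exact Finset.sum_nonneg fun v _ => norm_nonneg v
  have hVv : ∀ v ∈ D, ‖v‖ ≤ V := by
    intro v hv
    rw [hV]
    exact Finset.single_le_sum (f := fun v : E => ‖v‖) (fun v _ => norm_nonneg v) hv
  obtain ⟨η₁, hη₁⟩ : ∃ η₁ : ℝ, η₁ = r / (4 * (2 * p + 1) * (V + 1)) := ⟨_, rfl⟩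
  have hη₁0 : 0 < η₁ := by rw [hη₁]; positivity
  refine ⟨8 * |C (2 * p)| + 2 ^ (2 * p), min (η (2 * p)) (min (1 / 2) η₁),
    lt_min (hη _) (lt_min (by norm_num) hη₁0), ?_⟩
  intro s h1 h2 v hv h hh hhη y hy
  have hh1 : h ≤ η (2 * p) := hhη.trans (min_le_left _ _)
  have hh2 : h ≤ 1 / 2 := (hhη.trans (min_le_right _ _)).trans (min_le_left _ _)
  have hh3 : h ≤ η₁ := (hhη.trans (min_le_right _ _)).trans (min_le_right _ _)
  have hhp : h ^ p ≤ 1 := pow_le_one₀ hh.le (by linarith)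
  have hhp0 : 0 < h ^ p := by positivity
  -- the choice of m
  obtain ⟨m, hm1, hm2, hm3⟩ : ∃ m : ℕ, 1 ≤ m ∧ (1 / 64 : ℝ) ^ m ≤ h ^ p ∧
      (64 : ℝ) ^ (m - 1) * h ^ p ≤ 1 := by
    classical
    have hex : ∃ n : ℕ, (1 / 64 : ℝ) ^ n ≤ h ^ p := by
      obtain ⟨n, hn⟩ := exists_pow_lt_of_lt_one hhp0 (by norm_num : (1 / 64 : ℝ) < 1)
      exact ⟨n, hn.le⟩
    obtain ⟨n, hn⟩ : ∃ n : ℕ, n = Nat.find hex := ⟨_, rfl⟩
    have hn1 : (1 / 64 : ℝ) ^ n ≤ h ^ p := by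
      rw [hn]
      exact Nat.find_spec hex
    rcases Nat.eq_zero_or_pos n with h0 | h0
    · refine ⟨1, le_rfl, ?_, ?_⟩
      · rw [h0, pow_zero] at hn1
        rw [pow_one]
        linarith
      · simpa using hhp
    · refine ⟨n, h0, hn1, ?_⟩
      have h3 : ¬ (1 / 64 : ℝ) ^ (n - 1) ≤ h ^ p := by
        refine Nat.find_min hex ?_
        rw [← hn]
        omega
      rw [not_le] at h3
      have h4 : (64 : ℝ) ^ (n - 1) * (1 / 64) ^ (n - 1) = 1 := by
        rw [← mul_pow]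
        norm_num
      have h5 : (64 : ℝ) ^ (n - 1) * h ^ p ≤ (64 : ℝ) ^ (n - 1) * (1 / 64) ^ (n - 1) :=
        mul_le_mul_of_nonneg_left h3.le (by positivity)
      rw [h4] at h5
      exact h5
  have hM : (((2 * p : ℕ) : ℝ)) * h * ‖v‖ ≤ r / 2 := by
    have h3 : ‖v‖ ≤ V + 1 := (hVv v hv).trans (by linarith)
    have h4 : (((2 * p : ℕ) : ℝ)) * h ≤ (2 * p + 1) * η₁ := by
      push_cast
      exact mul_le_mul (by linarith) hh3 hh.le (by positivity)
    have h5 : (((2 * p : ℕ) : ℝ)) * h * ‖v‖ ≤ (2 * p + 1) * η₁ * (V + 1) :=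
      mul_le_mul h4 h3 (norm_nonneg _) (by positivity)
    refine h5.trans (le_of_eq ?_ |>.trans (by linarith : r / 4 ≤ r / 2))
    rw [hη₁]
    field_simp
  have key := key_HRT hPID x₀ w r τ₀ A hr hτ hA hAτ s h1 (2 * p) v h
    (|C (2 * p)| * h ^ (2 * p)) hh
    (fun τ ht1 ht2 y' hy' => (h2 τ ht1 ht2 y' hy' (2 * p) v hv h hh hh1).trans
      (mul_le_mul_of_nonneg_right (le_abs_self _) (by positivity))) y hy hM m hm1
  refine key.trans ?_
  -- 8^m h^(2p) ≤ 8 h^p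
  have h8 : (8 : ℝ) ^ (m - 1) * h ^ p ≤ 1 := by
    have h3 : ((8 : ℝ) ^ (m - 1) * h ^ p) ^ 2 ≤ 1 := by
      have h4 : ((8 : ℝ) ^ (m - 1) * h ^ p) ^ 2 = (64 : ℝ) ^ (m - 1) * h ^ p * h ^ p := by
        rw [mul_pow, ← pow_mul, mul_comm (m - 1) 2, pow_mul]
        norm_num
        ring
      rw [h4]
      exact mul_le_one₀ hm3 hhp0.le hhp
    exact (sq_le_one_iff₀ (by positivity)).1 h3
  have h9 : (8 : ℝ) ^ m * h ^ (2 * p) ≤ 8 * h ^ p := by
    have h4 : (8 : ℝ) ^ m * h ^ (2 * p) = 8 * ((8 : ℝ) ^ (m - 1) * h ^ p) * h ^ p := by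
      obtain ⟨k, rfl⟩ : ∃ k, m = k + 1 := ⟨m - 1, by omega⟩
      rw [Nat.add_sub_cancel, pow_succ, two_mul, pow_add]
      ring
    rw [h4]
    have h5 : 8 * ((8 : ℝ) ^ (m - 1) * h ^ p) ≤ 8 := by linarith
    exact mul_le_mul_of_nonneg_right h5 hhp0.le
  have h10 : (2 : ℝ) ^ (2 * p) * (1 / 64) ^ m ≤ 2 ^ (2 * p) * h ^ p :=
    mul_le_mul_of_nonneg_left hm2 (by positivity)
  have h11 : (8 : ℝ) ^ m * (|C (2 * p)| * h ^ (2 * p)) ≤ 8 * |C (2 * p)| * h ^ p := by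
    have h12 := mul_le_mul_of_nonneg_left h9 (abs_nonneg (C (2 * p)))
    linarith
  rw [add_mul]
  exact add_le_add h11 h10

end Pool.Agent.H43.UDP
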