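import Pool.Agent.H29.UDP.TPro
import Pool.Agent.H1.DPC.MCT
import Pool.Agent.H67.DPC.CTN
import Pool.Agent.H70.DPC.CPL
import Pool.Agent.H98.DPC.HOL

/-!
# MP_47c37b: scaling limits: near a point where the differences are bounded the moments are smooth
(row LOX)
-/

set_option autoImplicit false

open MeasureTheory SchwartzMap Filter Topology
open scoped ENNReal ContDiff

namespace Pool.Agent.H43.UDP

open Pool.Agent.H43.DPC (V S SD moment trans IsMAO pm T_MCT)
open Pool.Agent.H43.DPCS (TransInv)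
open Pool.Agent.H29.UDP
open Pool.Agent.H80.LD (LocP)

noncomputable section

theorem lox_tendsto {d : ℕ} (ρ : ℕ → S d) (hρ : Api ρ) (k₀ : ℕ) (f : S d) (h : ℕ → S d)
    (hh : ∀ k x, h k x = ∫ y, f y * ρ (k + k₀) (x - y)) : Tendsto h atTop (𝓝 f) := by
  rw [(schwartz_withSeminorms ℝ (V d) ℝ).tendsto_nhds]
  intro i ε hε
  set m : ℕ := max i.1 i.2 with hm
  obtain ⟨C, hC⟩ := hρ.rate m
  have h0 : Tendsto (fun k : ℕ => (((k + k₀ : ℕ) : ℝ) + 1)) atTop atTop :=
    tendsto_atTop_add_const_right _ _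
      (tendsto_natCast_atTop_atTop.comp (tendsto_add_atTop_nat k₀))
  have h1 : Tendsto (fun k : ℕ => C * pm (m + 1) f / (((k + k₀ : ℕ) : ℝ) + 1)) atTop (𝓝 0) :=
    tendsto_const_nhds.div_atTop h0
  filter_upwards [h1.eventually (gt_mem_nhds hε)] with k hk
  refine lt_of_le_of_lt ?_ hk
  refine le_trans ?_ (hC (k + k₀) f (h k) (hh k))
  refine Seminorm.le_finset_sup_apply (p := schwartzSeminormFamily ℝ (V d) ℝ) ?_
  rw [Finset.mem_Iic]
  exact ⟨le_max_left _ _, le_max_right _ _⟩

theorem pf_LOX (hRG2 : T_RG2) (hCHR : T_CHR) (_hMDF : T_MDF)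
    (hMOL : Pool.Agent.H80.LD.T_MOL) (hCON : Pool.Agent.H43.DPC.T_CON) : T_LOX := by
  classical
  intro d μ _ hM hT ρ hρ n x r D N k₀ hr hspan hdiff
  have hMCT : T_MCT := Pool.Agent.H1.DPC.MCT
    (Pool.Agent.H43.DPC.CTN Pool.Agent.H70.DPC.CPL) Pool.Agent.H43.DPC.HOL
  let b : ∀ j, ContDiffBump (x j) := fun j => ⟨r / 4, r / 2, by linarith, by linarith⟩
  set χ : (Fin n → V d) → ℝ := fun y => ∏ j, b j (y j) with hχdef
  set U : Set (Fin n → V d) := Metric.ball x r with hU
  set s : ℕ → (Fin n → V d) → ℝ := fun k y => mm μ (ρ (k + k₀)) n y with hs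
  -- mollified moments
  have hmol : ∀ (k : ℕ) (f : Fin n → S d), ∃ h : Fin n → S d,
      (∀ j x, h j x = ∫ y, f j y * ρ (k + k₀) (x - y)) ∧ Continuous (s k) ∧
      moment μ h = ∫ y : Fin n → V d, (∏ j, f j (y j)) * s k y := by
    intro k f
    choose h hh using fun j => hCON d (f j) (ρ (k + k₀))
    obtain ⟨h1, -, h2⟩ := hMOL d μ hM hT n (ρ (k + k₀)) f h hh
    exact ⟨h, hh, h1, h2⟩
  have hcont : ∀ k, Continuous (s k) := fun k => (hmol k (fun _ => ρ k)).choose_spec.2.1
  have hlim : ∀ f : Fin n → S d,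
      Tendsto (fun k => ∫ y : Fin n → V d, (∏ j, f j (y j)) * s k y) atTop (𝓝 (moment μ f)) := by
    intro f
    choose h hh hc hm using fun k => hmol k f
    have h1 := hMCT d μ hM n h f fun j =>
      lox_tendsto ρ hρ k₀ (f j) (fun k => h k j) fun k z => hh k j z
    refine h1.congr fun k => ?_
    exact hm k
  -- the cut-off function
  have hχ : ContDiff ℝ ∞ χ := by
    rw [hχdef]
    apply contDiff_prod
    intro j _
    exact (b j).contDiff.comp (contDiff_apply ℝ (V d) j)
  have hχ0 : ∀ y, χ y ≠ 0 → ∀ j, y j ∈ Metric.closedBall (x j) (r / 2) := by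
    intro y hy j
    have h1 : b j (y j) ≠ 0 := fun h0 => hy (Finset.prod_eq_zero (Finset.mem_univ j) h0)
    have h2 : y j ∈ Function.support (b j) := h1
    rw [ContDiffBump.support_eq] at h2
    exact Metric.ball_subset_closedBall h2
  have hχt : tsupport χ ⊆ Set.pi Set.univ fun j => Metric.closedBall (x j) (r / 2) := by
    apply closure_minimal
    · intro y hy j _
      exact hχ0 y hy j
    · exact isClosed_set_pi fun j _ => Metric.isClosed_closedBall
  have hχc : HasCompactSupport χ :=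
    (isCompact_univ_pi fun j => isCompact_closedBall (x j) (r / 2)).of_isClosed_subset
      (isClosed_tsupport _) hχt
  have hχU : tsupport χ ⊆ U := by
    intro y hy
    rw [hU, Metric.mem_ball, dist_pi_lt_iff (by positivity)]
    intro j
    have h1 := hχt hy j (Set.mem_univ j)
    have h2 : dist (y j) (x j) ≤ r / 2 := h1
    linarith
  -- the differences
  have hbd : ∀ m : ℕ, ∃ C η : ℝ, 0 < η ∧ ∀ k, ∀ v ∈ D, ∀ h : ℝ, 0 < h → h ≤ η → ∀ y ∈ U,
      (∀ i ≤ m, y + ((i : ℝ) * h) • v ∈ U) → |dm m h v (s k) y| ≤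
        C * ((k : ℝ) + 1) ^ N * h ^ m := by
    intro m
    obtain ⟨C, η, hη, hC⟩ := hdiff m
    refine ⟨|C| * ((k₀ : ℝ) + 1) ^ N, η, hη, ?_⟩
    intro k v hv h hh hhη y hy _
    have h1 := hC (k + k₀) (Nat.le_add_left _ _) v hv h hh hhη y hy
    refine h1.trans ?_
    have h2 : (((k + k₀ : ℕ) : ℝ) + 1) ^ N ≤ (((k₀ : ℝ) + 1) * ((k : ℝ) + 1)) ^ N := by
      apply pow_le_pow_left₀ (by positivity)
      push_cast
      have h3 : (0 : ℝ) ≤ (k₀ : ℝ) * k := by positivity
      nlinarith
    rw [mul_pow] at h2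
    calc C * (((k + k₀ : ℕ) : ℝ) + 1) ^ N * h ^ m
        ≤ |C| * (((k + k₀ : ℕ) : ℝ) + 1) ^ N * h ^ m := by
          gcongr
          exact le_abs_self C
      _ ≤ |C| * (((k₀ : ℝ) + 1) ^ N * ((k : ℝ) + 1) ^ N) * h ^ m := by gcongr
      _ = |C| * ((k₀ : ℝ) + 1) ^ N * ((k : ℝ) + 1) ^ N * h ^ m := by ring
  -- the waves
  obtain ⟨C, p, hCp⟩ := hCHR d μ hM hT ρ hρ n (fun j => b j) (fun j => (b j).contDiff)
    (fun j => (b j).hasCompactSupport)
  have hmin : ∀ (l : (Fin n → V d) →L[ℝ] ℝ) (k k' : ℕ),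
      C * (1 + ‖l‖) ^ p / (((min (k + k₀) (k' + k₀) : ℕ) : ℝ) + 1) ≤
        |C| * (1 + ‖l‖) ^ p / (((min k k' : ℕ) : ℝ) + 1) := by
    intro l k k'
    apply div_le_div₀ (by positivity)
    · gcongr
      exact le_abs_self C
    · positivity
    · have h1 : min k k' ≤ min (k + k₀) (k' + k₀) := by omega
      have h2 : ((min k k' : ℕ) : ℝ) ≤ ((min (k + k₀) (k' + k₀) : ℕ) : ℝ) := by exact_mod_cast h1
      linarith
  obtain ⟨u, B, hu, hB, hulim⟩ := hRG2 (Fin n → V d) volume χ U D N p |C| s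
    hχ hχc Metric.isOpen_ball hχU hspan hcont hbd
    (fun l k k' => ⟨((hCp l (k + k₀) (k' + k₀)).1).trans (hmin l k k'),
      ((hCp l (k + k₀) (k' + k₀)).2).trans (hmin l k k')⟩)
  refine ⟨r / 4, u, by positivity, hu, ?_⟩
  intro f hf
  have h1 := hlim f
  have hprod : Integrable (fun y : Fin n → V d => ∏ j, f j (y j)) :=
    Integrable.fintype_prod (f := fun j => f j) fun j => (f j).integrable
  have e1 : ∀ k (y : Fin n → V d), (∏ j, f j (y j)) * s k y =
      (∏ j, f j (y j)) * (χ y * s k y) := by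
    intro k y
    by_cases h0 : ∏ j, f j (y j) = 0
    · rw [h0, zero_mul, zero_mul]
    · have h2 : χ y = 1 := by
        rw [hχdef]
        apply Finset.prod_eq_one
        intro j _
        apply ContDiffBump.one_of_mem_closedBall
        have h3 : f j (y j) ≠ 0 := fun h => h0 (Finset.prod_eq_zero (Finset.mem_univ j) h)
        exact Metric.ball_subset_closedBall (hf j (subset_tsupport _ h3))
      rw [h2, one_mul]
  have h2 : Tendsto (fun k => ∫ y : Fin n → V d, (∏ j, f j (y j)) * (χ y * s k y)) atTop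
      (𝓝 (∫ y : Fin n → V d, (∏ j, f j (y j)) * u y)) := by
    apply tendsto_integral_of_dominated_convergence (fun y => ‖∏ j, f j (y j)‖ * B)
    · intro k
      apply Continuous.aestronglyMeasurable
      apply Continuous.mul
      · exact continuous_finsetProd _ fun j _ => (f j).continuous.comp (continuous_apply j)
      · exact hχ.continuous.mul (hcont k)
    · exact hprod.norm.mul_const B
    · intro k
      filter_upwards with y
      rw [norm_mul]
      gcongr
      exact hB k y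
    · filter_upwards with y
      exact (hulim y).const_mul _
  have h3 := tendsto_nhds_unique (h1.congr fun k => integral_congr_ae
    (Eventually.of_forall fun y => e1 k y)) h2
  rw [h3]
  apply integral_congr_ae
  filter_upwards with y
  ring

end

end Pool.Agent.H43.UDP
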