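import Pool.Agent.H29.UDP.TAna

/-! MP_47c37b_mp, scaling limits: row MAR (Marchaud's inequality). -/

set_option autoImplicit false

namespace Pool.Agent.H43.UDP

open Filter Topology Pool.Agent.H29.UDP

/-- difference with step `h` -/
def DD (h : ℝ) (f : ℝ → ℝ) (t : ℝ) : ℝ := f t - f (t + h)

/-- sum with step `h` -/
def UU (h : ℝ) (f : ℝ → ℝ) (t : ℝ) : ℝ := f t + f (t + h)

theorem dmF_succ (j : ℕ) (F : ℕ → ℝ) :
    ∑ i ∈ Finset.range (j + 2), (-1) ^ i * ((j + 1).choose i : ℝ) * F i =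
      (∑ i ∈ Finset.range (j + 1), (-1) ^ i * (j.choose i : ℝ) * F i) -
        ∑ i ∈ Finset.range (j + 1), (-1) ^ i * (j.choose i : ℝ) * F (i + 1) := by
  rw [Finset.sum_range_succ']
  have h1 : ∀ i ∈ Finset.range (j + 1), (-1) ^ (i + 1) * ((j + 1).choose (i + 1) : ℝ) * F (i + 1) =
      (-1) ^ (i + 1) * (j.choose (i + 1) : ℝ) * F (i + 1) -
        (-1) ^ i * (j.choose i : ℝ) * F (i + 1) := by
    intro i _
    rw [Nat.choose_succ_succ, Nat.cast_add, pow_succ]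
    ring
  rw [Finset.sum_congr rfl h1, Finset.sum_sub_distrib]
  have h2 : ∑ i ∈ Finset.range (j + 1), (-1) ^ i * (j.choose i : ℝ) * F i =
      (∑ i ∈ Finset.range (j + 1), (-1) ^ (i + 1) * (j.choose (i + 1) : ℝ) * F (i + 1)) +
        (-1) ^ 0 * (j.choose 0 : ℝ) * F 0 := by
    rw [← Finset.sum_range_succ' (fun i => (-1) ^ i * (j.choose i : ℝ) * F i),
      Finset.sum_range_succ _ (j + 1), Nat.choose_succ_self]
    simp
  rw [h2]
  simp only [Nat.choose_zero_right]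
  ring

theorem iter_DD (h : ℝ) (f : ℝ → ℝ) (j : ℕ) (t : ℝ) :
    (DD h)^[j] f t = ∑ i ∈ Finset.range (j + 1), (-1) ^ i * (j.choose i : ℝ) * f (t + i * h) := by
  induction j generalizing t with
  | zero => simp
  | succ j ih =>
    rw [Function.iterate_succ_apply', dmF_succ j fun i => f (t + i * h)]
    unfold DD at ih ⊢
    rw [ih t, ih (t + h)]
    congr 1
    refine Finset.sum_congr rfl fun i _ => ?_
    rw [Nat.cast_add, Nat.cast_one]
    congr 2
    ring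

theorem DD_two (h : ℝ) : DD (2 * h) = UU h ∘ DD h := by
  funext f t
  simp only [Function.comp, DD, UU]
  rw [two_mul, ← add_assoc]
  ring

theorem comm_UD (h : ℝ) : Function.Commute (UU h) (DD h) := by
  intro f
  funext t
  simp only [DD, UU]
  ring

theorem iter_two (h : ℝ) (j : ℕ) (f : ℝ → ℝ) (t : ℝ) :
    (DD (2 * h))^[j] f t = (UU h)^[j] ((DD h)^[j] f) t := by
  rw [DD_two, (comm_UD h).comp_iterate]
  rfl

theorem bdd_DD (h : ℝ) (j : ℕ) (g : ℝ → ℝ) (t S : ℝ)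
    (hg : ∀ l : ℕ, l ≤ j → |g (t + l * h)| ≤ S) : |(DD h)^[j] g t| ≤ 2 ^ j * S := by
  induction j generalizing g S with
  | zero =>
    have := hg 0 le_rfl
    simpa using this
  | succ j ih =>
    rw [Function.iterate_succ_apply]
    refine (ih (DD h g) (2 * S) fun l hl => ?_).trans (le_of_eq (by rw [pow_succ]; ring))
    have h1 := hg l (by omega)
    have h2 := hg (l + 1) (by omega)
    have h3 : t + ((l + 1 : ℕ) : ℝ) * h = t + l * h + h := by
      push_cast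
      ring
    rw [h3] at h2
    unfold DD
    refine (abs_sub _ _).trans ?_
    linarith

theorem bdd_UU (h : ℝ) (j : ℕ) (g : ℝ → ℝ) (t S : ℝ) (hS : 0 ≤ S)
    (hg : ∀ l : ℕ, l < j → |DD h g (t + l * h)| ≤ S) :
    |2 ^ j * g t - (UU h)^[j] g t| ≤ j * 2 ^ j * S := by
  induction j generalizing g S with
  | zero => simp
  | succ j ih =>
    rw [Function.iterate_succ_apply]
    have h1 : |2 ^ j * UU h g t - (UU h)^[j] (UU h g) t| ≤ j * 2 ^ j * (2 * S) := by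
      refine ih (UU h g) (2 * S) (by linarith) fun l hl => ?_
      have h1 := hg l (by omega)
      have h2 := hg (l + 1) (by omega)
      have h3 : t + ((l + 1 : ℕ) : ℝ) * h = t + l * h + h := by
        push_cast
        ring
      rw [h3] at h2
      have h4 : DD h (UU h g) (t + l * h) = DD h g (t + l * h) + DD h g (t + l * h + h) := by
        unfold DD UU
        ring
      rw [h4]
      refine (abs_add_le _ _).trans ?_
      linarith
    have h2 : |2 ^ (j + 1) * g t - 2 ^ j * UU h g t| ≤ 2 ^ j * S := by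
      have h3 : 2 ^ (j + 1) * g t - 2 ^ j * UU h g t = 2 ^ j * DD h g (t + ((0 : ℕ) : ℝ) * h) := by
        rw [Nat.cast_zero, zero_mul, add_zero]
        unfold DD UU
        rw [pow_succ]
        ring
      rw [h3, abs_mul, abs_of_nonneg (by positivity : (0 : ℝ) ≤ 2 ^ j)]
      exact mul_le_mul_of_nonneg_left (hg 0 (by omega)) (by positivity)
    have h3 : 2 ^ (j + 1) * g t - (UU h)^[j] (UU h g) t =
        (2 ^ (j + 1) * g t - 2 ^ j * UU h g t) +
          (2 ^ j * UU h g t - (UU h)^[j] (UU h g) t) := by ring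
    rw [h3]
    refine (abs_add_le _ _).trans ((add_le_add h2 h1).trans ?_)
    have h4 : 0 ≤ 2 ^ j * S := by positivity
    rw [Nat.cast_add, Nat.cast_one, pow_succ]
    linarith

theorem rec_DD (h : ℝ) (j : ℕ) (f : ℝ → ℝ) (t S : ℝ) (hS : 0 ≤ S)
    (hf : ∀ l : ℕ, l < j → |(DD h)^[j + 1] f (t + l * h)| ≤ S) :
    |(DD h)^[j] f t| ≤ (1 / 2) ^ j * |(DD (2 * h))^[j] f t| + j * S := by
  have h1 := bdd_UU h j ((DD h)^[j] f) t S hS (fun l hl => by
    have h2 := hf l hl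
    rw [Function.iterate_succ_apply'] at h2
    exact h2)
  rw [← iter_two] at h1
  have h2 : |2 ^ j * (DD h)^[j] f t| ≤ |(DD (2 * h))^[j] f t| + j * 2 ^ j * S := by
    have h3 := abs_add_le ((DD (2 * h))^[j] f t)
      (2 ^ j * (DD h)^[j] f t - (DD (2 * h))^[j] f t)
    rw [add_sub_cancel] at h3
    linarith
  rw [abs_mul, abs_of_nonneg (by positivity : (0 : ℝ) ≤ 2 ^ j)] at h2
  have h4 : (1 / 2 : ℝ) ^ j * 2 ^ j = 1 := by
    rw [← mul_pow]
    norm_num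
  have h5 := mul_le_mul_of_nonneg_left h2 (by positivity : (0 : ℝ) ≤ (1 / 2) ^ j)
  calc |(DD h)^[j] f t| = ((1 / 2) ^ j * 2 ^ j) * |(DD h)^[j] f t| := by rw [h4, one_mul]
    _ = (1 / 2) ^ j * (2 ^ j * |(DD h)^[j] f t|) := by ring
    _ ≤ (1 / 2) ^ j * (|(DD (2 * h))^[j] f t| + j * 2 ^ j * S) := h5
    _ = (1 / 2) ^ j * |(DD (2 * h))^[j] f t| + j * ((1 / 2) ^ j * 2 ^ j) * S := by ring
    _ = (1 / 2) ^ j * |(DD (2 * h))^[j] f t| + j * S := by rw [h4, mul_one]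

/-- constants -/
def Kc (N : ℕ) : ℕ → ℝ
  | 0 => 2 ^ N
  | d + 1 => 2 ^ N + 3 * N * Kc N d

theorem Kc_nonneg (N d : ℕ) : 0 ≤ Kc N d := by
  induction d with
  | zero => exact (by positivity : (0 : ℝ) ≤ 2 ^ N)
  | succ d ih =>
    change (0 : ℝ) ≤ 2 ^ N + 3 * N * Kc N d
    positivity

/-- levels above `m` -/
theorem level_A (m E N : ℕ) (hN : N = m + 1 + E) (f : ℝ → ℝ) (B H H₀ T : ℝ) (hB : 0 ≤ B)
    (hH₀ : 0 < H₀) (hH : H₀ ≤ H) (hfB : ∀ t, 0 ≤ t → t ≤ T → |f t| ≤ B)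
    (htop : ∀ (n : ℕ) (t : ℝ), 0 ≤ t → t + N * H ≤ T →
      |(DD (H₀ / 2 ^ n))^[N] f t| ≤ 2 ^ N * B * ((1 / 2) ^ m * (3 / 4)) ^ n) :
    ∀ d : ℕ, d ≤ E → ∀ (n : ℕ) (t : ℝ), 0 ≤ t → t + (d + 1) * (N * H) ≤ T →
      |(DD (H₀ / 2 ^ n))^[N - d] f t| ≤ Kc N d * B * ((1 / 2) ^ m * (3 / 4)) ^ n := by
  have hH0 : 0 < H := hH₀.trans_le hH
  intro d
  induction d with
  | zero =>
    intro _ n t ht htT
    rw [Nat.sub_zero]
    refine htop n t ht ?_
    rw [Nat.cast_zero, zero_add, one_mul] at htT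
    exact htT
  | succ d ih =>
    intro hd n t ht htT
    have ihd := ih (by omega)
    obtain ⟨j, hj⟩ : ∃ j : ℕ, j = N - (d + 1) := ⟨_, rfl⟩
    have hj1 : N - d = j + 1 := by omega
    have hjm : m + 1 ≤ j := by omega
    have hjN : j ≤ N := by omega
    rw [← hj]
    rw [hj1] at ihd
    have hKd := Kc_nonneg N d
    have hKd1 := Kc_nonneg N (d + 1)
    have hKeq : Kc N (d + 1) = 2 ^ N + 3 * N * Kc N d := rfl
    have hNH : 0 ≤ (N : ℝ) * H := by positivity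
    have hd0 : (0 : ℝ) ≤ d := Nat.cast_nonneg d
    rw [Nat.cast_add, Nat.cast_one] at htT
    have hNHT : t + (d + 1) * (N * H) + N * H ≤ T := by linarith
    obtain ⟨ρ, hρ⟩ : ∃ ρ : ℝ, ρ = (1 / 2) ^ m * (3 / 4) := ⟨_, rfl⟩
    have hρ0 : 0 < ρ := by rw [hρ]; positivity
    rw [← hρ] at ihd ⊢
    induction n with
    | zero =>
      rw [pow_zero, pow_zero, mul_one, div_one]
      have h1 : |(DD H₀)^[j] f t| ≤ 2 ^ j * B := by
        refine bdd_DD H₀ j f t B fun l hl => hfB _ (by positivity) ?_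
        have h2 : (l : ℝ) * H₀ ≤ N * H :=
          mul_le_mul (by exact_mod_cast hl.trans hjN) hH hH₀.le (by positivity)
        have h3 : 0 ≤ ((d : ℝ) + 1) * (N * H) := by positivity
        linarith
      refine h1.trans (mul_le_mul_of_nonneg_right ?_ hB)
      rw [hKeq]
      have h2 : (2 : ℝ) ^ j ≤ 2 ^ N := pow_le_pow_right₀ (by norm_num) hjN
      have h3 : 0 ≤ 3 * (N : ℝ) * Kc N d := by positivity
      linarith
    | succ n ihn =>
      have hstep : 2 * (H₀ / 2 ^ (n + 1)) = H₀ / 2 ^ n := by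
        rw [pow_succ]
        field_simp
      have hsmall : H₀ / 2 ^ (n + 1) ≤ H :=
        (div_le_self hH₀.le (one_le_pow₀ (by norm_num))).trans hH
      have hS : 0 ≤ Kc N d * B * ρ ^ (n + 1) := by positivity
      have h1 := rec_DD (H₀ / 2 ^ (n + 1)) j f t (Kc N d * B * ρ ^ (n + 1)) hS (fun l hl => by
        refine ihd (n + 1) _ (by positivity) ?_
        have h2 : (l : ℝ) * (H₀ / 2 ^ (n + 1)) ≤ N * H :=
          mul_le_mul (by exact_mod_cast (hl.le.trans hjN)) hsmall (by positivity) (by positivity)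
        linarith)
      rw [hstep] at h1
      refine h1.trans ?_
      have h2 : (1 / 2 : ℝ) ^ j ≤ 2 / 3 * ρ := by
        have h3 : (1 / 2 : ℝ) ^ j ≤ (1 / 2) ^ (m + 1) :=
          pow_le_pow_of_le_one (by norm_num) (by norm_num) hjm
        have h4 : (1 / 2 : ℝ) ^ (m + 1) = 2 / 3 * ρ := by
          rw [hρ, pow_succ]
          ring
        rw [← h4]
        exact h3
      have h3 : (1 / 2 : ℝ) ^ j * |(DD (H₀ / 2 ^ n))^[j] f t| ≤
          2 / 3 * ρ * (Kc N (d + 1) * B * ρ ^ n) :=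
        mul_le_mul h2 ihn (abs_nonneg _) (by positivity)
      have h4 : (j : ℝ) * (Kc N d * B * ρ ^ (n + 1)) ≤ N * (Kc N d * B * ρ ^ (n + 1)) :=
        mul_le_mul_of_nonneg_right (by exact_mod_cast hjN) hS
      have h5 : 2 / 3 * ρ * (Kc N (d + 1) * B * ρ ^ n) + N * (Kc N d * B * ρ ^ (n + 1)) =
          (2 / 3 * Kc N (d + 1) + N * Kc N d) * (B * ρ ^ (n + 1)) := by
        rw [pow_succ]
        ring
      have h6 : 2 / 3 * Kc N (d + 1) + N * Kc N d ≤ Kc N (d + 1) := by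
        rw [hKeq]
        have : (0 : ℝ) ≤ 2 ^ N := by positivity
        linarith
      have h7 : 0 ≤ B * ρ ^ (n + 1) := by positivity
      have h8 := mul_le_mul_of_nonneg_right h6 h7
      calc (1 / 2 : ℝ) ^ j * |(DD (H₀ / 2 ^ n))^[j] f t| + j * (Kc N d * B * ρ ^ (n + 1))
          ≤ 2 / 3 * ρ * (Kc N (d + 1) * B * ρ ^ n) + N * (Kc N d * B * ρ ^ (n + 1)) :=
            add_le_add h3 h4
        _ = (2 / 3 * Kc N (d + 1) + N * Kc N d) * (B * ρ ^ (n + 1)) := h5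
        _ ≤ Kc N (d + 1) * (B * ρ ^ (n + 1)) := h8
        _ = Kc N (d + 1) * B * ρ ^ (n + 1) := by ring

/-- the last level -/
theorem level_B (m N : ℕ) (f : ℝ → ℝ) (B K H₀ T : ℝ) (hB : 0 ≤ B) (hK : 0 ≤ K) (hH₀ : 0 < H₀)
    (hmN : m ≤ N) (hT : N * H₀ ≤ T) (hfB : ∀ t, 0 ≤ t → t ≤ T → |f t| ≤ B)
    (hA : ∀ (n : ℕ) (t : ℝ), 0 ≤ t → t ≤ N * H₀ →
      |(DD (H₀ / 2 ^ n))^[m + 1] f t| ≤ K * B * ((1 / 2) ^ m * (3 / 4)) ^ n) (n : ℕ) :
    |(DD (H₀ / 2 ^ n))^[m] f 0| ≤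
      (2 ^ m * B + m * K * B * (4 - 4 * (3 / 4) ^ n)) * ((1 / 2) ^ m) ^ n := by
  induction n with
  | zero =>
    rw [pow_zero, pow_zero, pow_zero, div_one, mul_one, mul_one, sub_self, mul_zero, add_zero]
    refine bdd_DD H₀ m f 0 B fun l hl => hfB _ (by positivity) ?_
    have h2 : (l : ℝ) * H₀ ≤ N * H₀ :=
      mul_le_mul_of_nonneg_right (by exact_mod_cast hl.trans hmN) hH₀.le
    linarith
  | succ n ih =>
    have hstep : 2 * (H₀ / 2 ^ (n + 1)) = H₀ / 2 ^ n := by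
      rw [pow_succ]
      field_simp
    have hsmall : H₀ / 2 ^ (n + 1) ≤ H₀ := div_le_self hH₀.le (one_le_pow₀ (by norm_num))
    obtain ⟨ρ, hρ⟩ : ∃ ρ : ℝ, ρ = (1 / 2) ^ m * (3 / 4) := ⟨_, rfl⟩
    have hρ0 : 0 < ρ := by rw [hρ]; positivity
    rw [← hρ] at hA
    have hS : 0 ≤ K * B * ρ ^ (n + 1) := by positivity
    have h1 := rec_DD (H₀ / 2 ^ (n + 1)) m f 0 (K * B * ρ ^ (n + 1)) hS (fun l hl => by
      refine hA (n + 1) _ (by positivity) ?_
      rw [zero_add]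
      exact mul_le_mul (by exact_mod_cast (hl.le.trans hmN)) hsmall (by positivity)
        (by positivity))
    rw [hstep] at h1
    refine h1.trans ?_
    have h2 := mul_le_mul_of_nonneg_left ih (by positivity : (0 : ℝ) ≤ (1 / 2) ^ m)
    have h3 : ρ ^ (n + 1) = ((1 / 2) ^ m) ^ (n + 1) * (3 / 4) ^ (n + 1) := by
      rw [hρ, mul_pow]
    have h4 : (m : ℝ) * (K * B * ρ ^ (n + 1)) =
        (m * K * B * (3 / 4) ^ (n + 1)) * ((1 / 2) ^ m) ^ (n + 1) := by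
      rw [h3]
      ring
    rw [h4]
    have h5 : (1 / 2 : ℝ) ^ m * ((2 ^ m * B + m * K * B * (4 - 4 * (3 / 4) ^ n)) *
        ((1 / 2) ^ m) ^ n) =
        (2 ^ m * B + m * K * B * (4 - 4 * (3 / 4) ^ n)) * ((1 / 2) ^ m) ^ (n + 1) := by
      rw [pow_succ ((1 / 2 : ℝ) ^ m)]
      ring
    rw [h5] at h2
    refine (add_le_add_left h2 _).trans ?_
    rw [← add_mul]
    refine mul_le_mul_of_nonneg_right ?_ (by positivity)
    have h6 : 0 ≤ (m : ℝ) * K * B * (3 / 4) ^ n := by positivity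
    rw [pow_succ (3 / 4 : ℝ)]
    linarith

theorem pf_MAR : T_MAR := by
  intro M p m η r V hmp hη hr hV
  obtain ⟨N, hN⟩ : ∃ N : ℕ, N = m + 1 + M := ⟨_, rfl⟩
  have hN0 : (0 : ℝ) < N := by
    rw [hN]
    positivity
  obtain ⟨T, hT⟩ : ∃ T : ℝ, T = r / (2 * (V + 1)) := ⟨_, rfl⟩
  have hT0 : 0 < T := by rw [hT]; positivity
  obtain ⟨H, hH⟩ : ∃ H : ℝ, H = min (min 1 η) (T / ((M + 2) * N)) := ⟨_, rfl⟩
  have hH0 : 0 < H := by
    rw [hH]
    exact lt_min (lt_min one_pos hη) (by positivity)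
  have hH1 : H ≤ 1 := by
    rw [hH]
    exact (min_le_left _ _).trans (min_le_left _ _)
  have hHη : H ≤ η := by
    rw [hH]
    exact (min_le_left _ _).trans (min_le_right _ _)
  have hHT : (M + 2) * (N * H) ≤ T := by
    have h1 : H ≤ T / ((M + 2) * N) := by
      rw [hH]
      exact min_le_right _ _
    rw [le_div_iff₀ (by positivity)] at h1
    linarith
  have hK0 := Kc_nonneg N M
  refine ⟨(2 ^ m + 4 * m * Kc N M) * (2 / H) ^ m, H, by positivity, hH0, ?_⟩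
  intro E _ _ x₀ v s B hv hB hsB hs h hh hhH y hy
  obtain ⟨f, hf⟩ : ∃ f : ℝ → ℝ, f = fun t => s (y + t • v) := ⟨_, rfl⟩
  have hin : ∀ t : ℝ, 0 ≤ t → t ≤ T → y + t • v ∈ Metric.ball x₀ r := by
    intro t ht htT
    rw [Metric.mem_ball, dist_eq_norm] at hy ⊢
    have h3 : y + t • v - x₀ = (y - x₀) + t • v := by abel
    rw [h3]
    refine lt_of_le_of_lt (norm_add_le _ _) ?_
    rw [norm_smul, Real.norm_of_nonneg ht]
    have h4 : t * ‖v‖ ≤ T * (V + 1) :=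
      mul_le_mul htT (hv.trans (by linarith)) (norm_nonneg _) hT0.le
    have h5 : T * (V + 1) = r / 2 := by
      rw [hT]
      field_simp
    linarith
  have hfB : ∀ t, 0 ≤ t → t ≤ T → |f t| ≤ B := by
    intro t ht htT
    rw [hf]
    exact hsB _ (hin t ht htT)
  have hfM : ∀ (q t : ℝ), 0 < q → q ≤ η → 0 ≤ t → t + M * q ≤ T →
      |(DD q)^[M] f t| ≤ B * q ^ p := by
    intro q t hq hqη ht htT
    have h1 : (DD q)^[M] f t = dm M q v s (y + t • v) := by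
      rw [iter_DD]
      unfold dm
      refine Finset.sum_congr rfl fun i _ => ?_
      rw [hf, add_assoc, ← add_smul]
    have hMq : 0 ≤ (M : ℝ) * q := by positivity
    rw [h1]
    refine hs q hq hqη _ (hin t ht (by linarith)) fun i hi => ?_
    rw [add_assoc, ← add_smul]
    refine hin _ (by positivity) ?_
    have h2 : (i : ℝ) * q ≤ M * q := mul_le_mul_of_nonneg_right (by exact_mod_cast hi) hq.le
    linarith
  -- the scale
  obtain ⟨k, hk1, hk2⟩ : ∃ k : ℕ, 2 ^ k * h ≤ H ∧ H < 2 ^ (k + 1) * h := by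
    classical
    have hex : ∃ n : ℕ, H < 2 ^ n * h := by
      obtain ⟨n, hn⟩ := pow_unbounded_of_one_lt (H / h) (by norm_num : (1 : ℝ) < 2)
      refine ⟨n, ?_⟩
      rwa [div_lt_iff₀ hh] at hn
    have h0 : Nat.find hex ≠ 0 := by
      intro h0
      have h1 := Nat.find_spec hex
      rw [h0, pow_zero, one_mul] at h1
      linarith
    obtain ⟨k, hk⟩ := Nat.exists_eq_succ_of_ne_zero h0
    refine ⟨k, ?_, ?_⟩
    · have h1 := Nat.find_min hex (m := k) (by rw [hk]; exact Nat.lt_succ_self k)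
      exact not_lt.1 h1
    · have h1 := Nat.find_spec hex
      rw [hk] at h1
      exact h1
  obtain ⟨H₀, hH₀⟩ : ∃ H₀ : ℝ, H₀ = 2 ^ k * h := ⟨_, rfl⟩
  have hH₀0 : 0 < H₀ := by rw [hH₀]; positivity
  have hH₀H : H₀ ≤ H := by rw [hH₀]; exact hk1
  have hH₀2 : H < 2 * H₀ := by
    rw [hH₀, ← mul_assoc, ← pow_succ']
    exact hk2
  have hstepk : H₀ / 2 ^ k = h := by
    rw [hH₀]
    field_simp
  -- the top level
  have htop : ∀ (n : ℕ) (t : ℝ), 0 ≤ t → t + (m + 1 + M : ℕ) * H ≤ T →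
      |(DD (H₀ / 2 ^ n))^[m + 1 + M] f t| ≤
        2 ^ (m + 1 + M) * B * ((1 / 2) ^ m * (3 / 4)) ^ n := by
    intro n t ht htT
    have hq0 : 0 < H₀ / 2 ^ n := by positivity
    have hqH : H₀ / 2 ^ n ≤ H := (div_le_self hH₀0.le (one_le_pow₀ (by norm_num))).trans hH₀H
    have hq2 : H₀ / 2 ^ n ≤ (1 / 2) ^ n := by
      rw [one_div, inv_pow, ← one_div]
      exact div_le_div_of_nonneg_right (hH₀H.trans hH1) (by positivity)
    rw [Function.iterate_add_apply]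
    have h1 : |(DD (H₀ / 2 ^ n))^[m + 1] ((DD (H₀ / 2 ^ n))^[M] f) t| ≤
        2 ^ (m + 1) * (B * (H₀ / 2 ^ n) ^ p) := by
      refine bdd_DD _ _ _ _ _ fun l hl => ?_
      refine hfM _ _ hq0 (hqH.trans hHη) (by positivity) ?_
      have h2 : (l : ℝ) * (H₀ / 2 ^ n) + M * (H₀ / 2 ^ n) ≤ (m + 1 + M : ℕ) * H := by
        rw [← add_mul]
        refine mul_le_mul ?_ hqH hq0.le (by positivity)
        push_cast
        have : (l : ℝ) ≤ m + 1 := by exact_mod_cast hl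
        linarith
      linarith
    refine h1.trans ?_
    have h2 : (H₀ / 2 ^ n) ^ p ≤ ((1 / 2) ^ m * (3 / 4)) ^ n := by
      have h3 : (H₀ / 2 ^ n) ^ p ≤ (H₀ / 2 ^ n) ^ (m + 1) :=
        pow_le_pow_of_le_one hq0.le (hqH.trans hH1) hmp
      have h4 : (H₀ / 2 ^ n) ^ (m + 1) ≤ ((1 / 2) ^ n) ^ (m + 1) :=
        pow_le_pow_left₀ hq0.le hq2 _
      have h5 : (((1 : ℝ) / 2) ^ n) ^ (m + 1) = ((1 / 2) ^ m * (1 / 2)) ^ n := by
        rw [← pow_succ, ← pow_mul, ← pow_mul, mul_comm]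
      have h6 : (((1 : ℝ) / 2) ^ m * (1 / 2)) ^ n ≤ ((1 / 2) ^ m * (3 / 4)) ^ n :=
        pow_le_pow_left₀ (by positivity)
          (mul_le_mul_of_nonneg_left (by norm_num) (by positivity)) _
      calc (H₀ / 2 ^ n) ^ p ≤ (H₀ / 2 ^ n) ^ (m + 1) := h3
        _ ≤ ((1 / 2) ^ n) ^ (m + 1) := h4
        _ = ((1 / 2) ^ m * (1 / 2)) ^ n := h5
        _ ≤ ((1 / 2) ^ m * (3 / 4)) ^ n := h6
    have h3 : (2 : ℝ) ^ (m + 1) ≤ 2 ^ (m + 1 + M) :=
      pow_le_pow_right₀ (by norm_num) (by omega)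
    calc (2 : ℝ) ^ (m + 1) * (B * (H₀ / 2 ^ n) ^ p)
        ≤ 2 ^ (m + 1) * (B * ((1 / 2) ^ m * (3 / 4)) ^ n) :=
          mul_le_mul_of_nonneg_left (mul_le_mul_of_nonneg_left h2 hB) (by positivity)
      _ ≤ 2 ^ (m + 1 + M) * (B * ((1 / 2) ^ m * (3 / 4)) ^ n) :=
          mul_le_mul_of_nonneg_right h3 (by positivity)
      _ = 2 ^ (m + 1 + M) * B * ((1 / 2) ^ m * (3 / 4)) ^ n := by ring
  rw [← hN] at htop
  have hA := level_A m M N hN f B H H₀ T hB hH₀0 hH₀H hfB htop M le_rfl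
  have hNM : N - M = m + 1 := by omega
  rw [hNM] at hA
  have hNH : (0 : ℝ) ≤ N * H := by positivity
  have hNH₀ : (N : ℝ) * H₀ ≤ N * H := mul_le_mul_of_nonneg_left hH₀H hN0.le
  have hM0 : (0 : ℝ) ≤ (M : ℝ) * (N * H) := by positivity
  have hBB := level_B m N f B (Kc N M) H₀ T hB hK0 hH₀0 (by omega) (by linarith) hfB
    (fun n t ht htN => hA n t ht (by linarith)) k
  rw [hstepk] at hBB
  have h1 : dm m h v s y = (DD h)^[m] f 0 := by
    rw [iter_DD]
    unfold dm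
    refine Finset.sum_congr rfl fun i _ => ?_
    rw [hf, zero_add]
  rw [h1]
  refine hBB.trans ?_
  have h2 : (2 ^ m * B + m * Kc N M * B * (4 - 4 * (3 / 4) ^ k)) ≤
      (2 ^ m + 4 * m * Kc N M) * B := by
    have h3 : 0 ≤ (m : ℝ) * Kc N M * B * (3 / 4) ^ k := by positivity
    linarith
  have h3 : (((1 : ℝ) / 2) ^ m) ^ k ≤ (2 / H) ^ m * h ^ m := by
    rw [← pow_mul, mul_comm m k, pow_mul, ← mul_pow]
    refine pow_le_pow_left₀ (by positivity) ?_ m
    have h4 : h = H₀ * (1 / 2) ^ k := by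
      rw [← hstepk, one_div, inv_pow, div_eq_mul_inv]
    have h5 : (1 : ℝ) ≤ 2 / H * H₀ := by
      rw [div_mul_eq_mul_div, le_div_iff₀ hH0]
      linarith
    calc ((1 : ℝ) / 2) ^ k = 1 * (1 / 2) ^ k := by rw [one_mul]
      _ ≤ (2 / H * H₀) * (1 / 2) ^ k := mul_le_mul_of_nonneg_right h5 (by positivity)
      _ = 2 / H * h := by
        rw [h4]
        ring
  calc (2 ^ m * B + m * Kc N M * B * (4 - 4 * (3 / 4) ^ k)) * (((1 : ℝ) / 2) ^ m) ^ k
      ≤ ((2 ^ m + 4 * m * Kc N M) * B) * ((2 / H) ^ m * h ^ m) :=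
        mul_le_mul h2 h3 (by positivity) (by positivity)
    _ = (2 ^ m + 4 * m * Kc N M) * (2 / H) ^ m * B * h ^ m := by ring

end Pool.Agent.H43.UDP
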